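import Mathlib

/-!
# `p`-metric mean dimension equals metric mean dimension for sofic group actions

For every countable group with a sofic approximation sequence, every `1 ≤ p < ∞` and every action
by homeomorphisms on a compact metrizable space, the `p`-metric mean dimension equals the sofic
metric mean dimension.
-/

set_option autoImplicit false

namespace Pool.Agent.Results.MP_9d0111_an.PMetricMeanDim

open Set Filter Topology
open scoped ENNReal

universe u v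

/-- `ρ` is a continuous pseudometric on `X`. -/
structure IsContPseudometric {X : Type u} [TopologicalSpace X] (ρ : X → X → ℝ) : Prop where
  cont : Continuous fun q : X × X => ρ q.1 q.2
  self : ∀ x, ρ x x = 0
  symm : ∀ x y, ρ x y = ρ y x
  triangle : ∀ x y z, ρ x z ≤ ρ x y + ρ y z

/-- `ρ` is dynamically generating: for `x ≠ y` there is `s` with `ρ(sx, sy) > 0`. -/
def DynGenerating (G : Type v) {X : Type u} [Group G] [MulAction G X] (ρ : X → X → ℝ) : Prop :=
  ∀ x y : X, x ≠ y → ∃ s : G, 0 < ρ (s • x) (s • y)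

/-- `ρ_p(φ, ψ) = ((1/d) ∑_j ρ(φ(j), ψ(j))^p)^{1/p}`. -/
noncomputable def rhoP {X : Type u} (ρ : X → X → ℝ) (p : ℝ) {d : ℕ} (φ ψ : Fin d → X) : ℝ :=
  ((∑ j, ρ (φ j) (ψ j) ^ p) / d) ^ (1 / p)

/-- `ρ_∞(φ, ψ) = max_j ρ(φ(j), ψ(j))`. -/
noncomputable def rhoInf {X : Type u} (ρ : X → X → ℝ) {d : ℕ} (φ ψ : Fin d → X) : ℝ :=
  ⨆ j, ρ (φ j) (ψ j)

/-- `Map(ρ, F, δ, σ)`: the maps `φ` with `ρ_2(φ ∘ σ(s), sφ) ≤ δ` for all `s ∈ F`. -/
def MapSet {G : Type v} {X : Type u} [Group G] [MulAction G X] (ρ : X → X → ℝ) (F : Finset G)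
    (δ : ℝ) {d : ℕ} (σ : G → Equiv.Perm (Fin d)) : Set (Fin d → X) :=
  {φ | ∀ s ∈ F, rhoP ρ 2 (φ ∘ σ s) (fun l => s • φ l) ≤ δ}

/-- `N_ε(Y, θ)`: the largest cardinality of a subset `E` of `Y` that is `ε`-separated, that is,
`θ(x, y) ≥ ε` for all distinct `x, y ∈ E`. -/
noncomputable def sepNum {Z : Type u} (Y : Set Z) (θ : Z → Z → ℝ) (ε : ℝ) : ℕ∞ :=
  ⨆ (E : Finset Z) (_ : (E : Set Z) ⊆ Y ∧ ∀ x ∈ E, ∀ y ∈ E, x ≠ y → ε ≤ θ x y), (E.card : ℕ∞)

/-- The quantity `liminf_{ε→0} inf_{F,δ} limsup_i log N_ε(Map(ρ,F,δ,σ_i), θ) / (d_i log(1/ε))`,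
with `θ` a family of functions on the spaces of maps; `log 0 = -∞`. -/
noncomputable def mdimWith {G : Type v} {X : Type u} [Group G] [MulAction G X]
    (d : ℕ → ℕ) (σ : (i : ℕ) → G → Equiv.Perm (Fin (d i))) (ρ : X → X → ℝ)
    (θ : (n : ℕ) → (Fin n → X) → (Fin n → X) → ℝ) : EReal :=
  liminf (fun ε : ℝ => ⨅ (F : Finset G) (δ : ℝ) (_ : 0 < δ),
    limsup (fun i => ENNReal.log ((sepNum (MapSet ρ F δ (σ i)) (θ (d i)) ε : ℕ∞) : ℝ≥0∞) /
      (((d i : ℝ) * Real.log (1 / ε) : ℝ) : EReal)) atTop) (𝓝[>] 0)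

/-- `mdim_{Σ,p}(ρ)` for `1 ≤ p < ∞`. -/
noncomputable def mdimP {G : Type v} {X : Type u} [Group G] [MulAction G X]
    (d : ℕ → ℕ) (σ : (i : ℕ) → G → Equiv.Perm (Fin (d i))) (p : ℝ) (ρ : X → X → ℝ) : EReal :=
  mdimWith d σ ρ (fun _ => rhoP ρ p)

/-- `mdim_{Σ,∞}(ρ)`. -/
noncomputable def mdimInf {G : Type v} {X : Type u} [Group G] [MulAction G X]
    (d : ℕ → ℕ) (σ : (i : ℕ) → G → Equiv.Perm (Fin (d i))) (ρ : X → X → ℝ) : EReal :=
  mdimWith d σ ρ (fun _ => rhoInf ρ)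

/-- The `p`-metric mean dimension `mdim_{Σ,M,p}(X, Γ)`. -/
noncomputable def pMetricMeanDim (G : Type v) (X : Type u) [Group G] [TopologicalSpace X]
    [MulAction G X] (d : ℕ → ℕ) (σ : (i : ℕ) → G → Equiv.Perm (Fin (d i))) (p : ℝ) : EReal :=
  ⨅ (ρ : X → X → ℝ) (_ : IsContPseudometric ρ ∧ DynGenerating G ρ), mdimP d σ p ρ

/-- The sofic metric mean dimension `mdim_{Σ,M}(X, Γ)`. -/
noncomputable def metricMeanDim (G : Type v) (X : Type u) [Group G] [TopologicalSpace X]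
    [MulAction G X] (d : ℕ → ℕ) (σ : (i : ℕ) → G → Equiv.Perm (Fin (d i))) : EReal :=
  ⨅ (ρ : X → X → ℝ) (_ : IsContPseudometric ρ ∧ DynGenerating G ρ), mdimInf d σ ρ

/-- Sofic approximation sequences. -/
structure IsSoficApprox (G : Type v) [Group G] (d : ℕ → ℕ)
    (σ : (i : ℕ) → G → Equiv.Perm (Fin (d i))) : Prop where
  size : Tendsto d atTop atTop
  mult : ∀ s t : G, Tendsto (fun i => (({j | σ i (s * t) j = σ i s (σ i t j)} :
    Set (Fin (d i))).ncard : ℝ) / d i) atTop (𝓝 1)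
  free : ∀ s : G, s ≠ 1 → Tendsto (fun i => (({j | σ i s j = j} :
    Set (Fin (d i))).ncard : ℝ) / d i) atTop (𝓝 0)

section basics

variable {X : Type u}

lemma IsContPseudometric.nonneg [TopologicalSpace X] {ρ : X → X → ℝ}
    (h : IsContPseudometric ρ) (x y : X) : 0 ≤ ρ x y := by
  have h1 := h.triangle x y x
  rw [h.self, h.symm y x] at h1
  linarith

lemma rhoP_nonneg {ρ : X → X → ℝ} (h : ∀ x y, 0 ≤ ρ x y) (p : ℝ) {d : ℕ} (φ ψ : Fin d → X) :
    0 ≤ rhoP ρ p φ ψ := by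
  unfold rhoP
  exact Real.rpow_nonneg (div_nonneg (Finset.sum_nonneg fun j _ => Real.rpow_nonneg (h _ _) _)
    (Nat.cast_nonneg _)) _

lemma le_rhoInf {ρ : X → X → ℝ} {d : ℕ} (φ ψ : Fin d → X) (j : Fin d) :
    ρ (φ j) (ψ j) ≤ rhoInf ρ φ ψ :=
  le_ciSup (Set.finite_range fun j => ρ (φ j) (ψ j)).bddAbove j

lemma rhoP_le_iff {ρ : X → X → ℝ} (h : ∀ x y, 0 ≤ ρ x y) {p : ℝ} (hp : 0 < p) {d : ℕ}
    (hd : 0 < d) (φ ψ : Fin d → X) {c : ℝ} (hc : 0 ≤ c) :
    rhoP ρ p φ ψ ≤ c ↔ ∑ j, ρ (φ j) (ψ j) ^ p ≤ c ^ p * d := by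
  have hd' : (0 : ℝ) < d := by exact_mod_cast hd
  have h1 : 0 ≤ (∑ j, ρ (φ j) (ψ j) ^ p) / d :=
    div_nonneg (Finset.sum_nonneg fun j _ => Real.rpow_nonneg (h _ _) _) hd'.le
  unfold rhoP
  rw [one_div, Real.rpow_inv_le_iff_of_pos h1 hc hp, div_le_iff₀ hd']

lemma rhoP_le_rhoInf {ρ : X → X → ℝ} (h : ∀ x y, 0 ≤ ρ x y) {p : ℝ} (hp : 0 < p) {d : ℕ}
    (φ ψ : Fin d → X) : rhoP ρ p φ ψ ≤ rhoInf ρ φ ψ := by
  rcases Nat.eq_zero_or_pos d with hd | hd
  · subst hd
    unfold rhoP rhoInf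
    simp only [Finset.univ_eq_empty, Finset.sum_empty, Nat.cast_zero, div_zero,
      Real.iSup_of_isEmpty]
    rw [Real.zero_rpow (by positivity)]
  · have h0 : 0 ≤ rhoInf ρ φ ψ := (h _ _).trans (le_rhoInf φ ψ ⟨0, hd⟩)
    rw [rhoP_le_iff h hp hd φ ψ h0]
    calc ∑ j, ρ (φ j) (ψ j) ^ p ≤ ∑ _j : Fin d, rhoInf ρ φ ψ ^ p :=
          Finset.sum_le_sum fun j _ => Real.rpow_le_rpow (h _ _) (le_rhoInf φ ψ j) hp.le
      _ = _ := by simp [mul_comm]

lemma rhoP_mono {ρ ρ' : X → X → ℝ} (h' : ∀ x y, 0 ≤ ρ' x y) (h : ∀ x y, ρ' x y ≤ ρ x y) {p : ℝ}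
    (hp : 0 < p) {d : ℕ} (φ ψ : Fin d → X) : rhoP ρ' p φ ψ ≤ rhoP ρ p φ ψ := by
  unfold rhoP
  refine Real.rpow_le_rpow (div_nonneg (Finset.sum_nonneg fun j _ => Real.rpow_nonneg (h' _ _) _)
    (Nat.cast_nonneg _)) ?_ (by positivity)
  exact div_le_div_of_nonneg_right (Finset.sum_le_sum fun j _ =>
    Real.rpow_le_rpow (h' _ _) (h _ _) hp.le) (Nat.cast_nonneg _)

lemma card_le_sepNum {Z : Type u} {Y : Set Z} {θ : Z → Z → ℝ} {ε : ℝ} (E : Finset Z)
    (hE : (E : Set Z) ⊆ Y) (hsep : ∀ x ∈ E, ∀ y ∈ E, x ≠ y → ε ≤ θ x y) :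
    (E.card : ℕ∞) ≤ sepNum Y θ ε :=
  le_iSup₂_of_le E ⟨hE, hsep⟩ le_rfl

lemma sepNum_mono {Z : Type u} {Y Y' : Set Z} {θ θ' : Z → Z → ℝ} {ε : ℝ} (hY : Y ⊆ Y')
    (hθ : ∀ x y, θ x y ≤ θ' x y) : sepNum Y θ ε ≤ sepNum Y' θ' ε :=
  iSup₂_le fun E hE => card_le_sepNum E (hE.1.trans hY)
    fun x hx y hy hxy => (hE.2 x hx y hy hxy).trans (hθ x y)

end basics

/-! ### A pseudometric with slow coverings -/

lemma exists_slow {X : Type u} [TopologicalSpace X] [CompactSpace X]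
    [TopologicalSpace.MetrizableSpace X] {ρ : X → X → ℝ} (hρ : IsContPseudometric ρ) :
    ∃ ρ' : X → X → ℝ, IsContPseudometric ρ' ∧ (∀ x y, ρ' x y ≤ ρ x y) ∧
      (∀ x y, ρ' x y = 0 → ρ x y = 0) ∧ ∃ C : ℝ, 0 ≤ C ∧ ∀ κ : ℝ, 0 < κ → κ ≤ 1 →
        ∃ (N : ℕ) (_ : 0 < N) (c : X → Fin N), Real.log N ≤ C * (1 + Real.log (1 / κ)) ^ 2 ∧
          ∀ x y, c x = c y → ρ' x y < κ := by
  rcases isEmpty_or_nonempty X with hX | hX
  · refine ⟨ρ, hρ, fun x => isEmptyElim x, fun x => isEmptyElim x, 0, le_rfl, fun κ _ _ =>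
      ⟨1, one_pos, fun x => isEmptyElim x, by simp, fun x => isEmptyElim x⟩⟩
  have hsep : TopologicalSpace.SeparableSpace X := by
    let := TopologicalSpace.metrizableSpaceMetric X
    infer_instance
  obtain ⟨u, hu⟩ := TopologicalSpace.exists_dense_seq X
  have hnn := hρ.nonneg
  obtain ⟨D0, hD0⟩ : ∃ D0 : ℝ, ∀ x y, ρ x y ≤ D0 := by
    obtain ⟨D0, hD0⟩ := (isCompact_univ (X := X × X)).bddAbove_image hρ.cont.continuousOn
    exact ⟨D0, fun x y => hD0 ⟨(x, y), mem_univ _, rfl⟩⟩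
  set D : ℝ := max D0 1 with hDdef
  have hD1 : 1 ≤ D := le_max_right _ _
  have hD : ∀ x y, ρ x y ≤ D := fun x y => (hD0 x y).trans (le_max_left _ _)
  have habs : ∀ x y z, |ρ x z - ρ y z| ≤ ρ x y := by
    intro x y z
    rw [abs_le]
    have h1 := hρ.triangle x y z
    have h2 := hρ.triangle y x z
    rw [hρ.symm y x] at h2
    constructor <;> linarith
  have hterm : ∀ x y n, |ρ x (u n) - ρ y (u n)| / 2 ^ n ≤ ρ x y := by
    intro x y n
    refine (div_le_self (abs_nonneg _) (one_le_pow₀ (by norm_num))).trans (habs x y _)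
  have hbdd : ∀ x y, BddAbove (range fun n => |ρ x (u n) - ρ y (u n)| / 2 ^ n) := by
    intro x y
    refine ⟨ρ x y, ?_⟩
    rintro _ ⟨n, rfl⟩
    exact hterm x y n
  have hle : ∀ x y, (⨆ n, |ρ x (u n) - ρ y (u n)| / 2 ^ n) ≤ ρ x y := fun x y =>
    ciSup_le fun n => hterm x y n
  have hself : ∀ x, (⨆ n : ℕ, |ρ x (u n) - ρ x (u n)| / 2 ^ n) = 0 := by
    intro x
    simp
  have hsymm : ∀ x y, (⨆ n : ℕ, |ρ x (u n) - ρ y (u n)| / 2 ^ n) =
      ⨆ n : ℕ, |ρ y (u n) - ρ x (u n)| / 2 ^ n := by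
    intro x y
    simp only [abs_sub_comm]
  have htri : ∀ x y z, (⨆ n : ℕ, |ρ x (u n) - ρ z (u n)| / 2 ^ n) ≤
      (⨆ n : ℕ, |ρ x (u n) - ρ y (u n)| / 2 ^ n) + ⨆ n : ℕ, |ρ y (u n) - ρ z (u n)| / 2 ^ n := by
    intro x y z
    refine ciSup_le fun n => ?_
    have h1 := le_ciSup (hbdd x y) n
    have h2 := le_ciSup (hbdd y z) n
    have h3 : |ρ x (u n) - ρ z (u n)| / 2 ^ n ≤
        |ρ x (u n) - ρ y (u n)| / 2 ^ n + |ρ y (u n) - ρ z (u n)| / 2 ^ n := by
      rw [← add_div]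
      exact div_le_div_of_nonneg_right (abs_sub_le _ _ _) (by positivity)
    exact h3.trans (add_le_add h1 h2)
  refine ⟨fun x y => ⨆ n : ℕ, |ρ x (u n) - ρ y (u n)| / 2 ^ n,
    ⟨?_, hself, hsymm, htri⟩, hle, ?_, 2 * (Real.log (4 * D) + 1) ^ 2, by positivity, ?_⟩
  · rw [continuous_iff_continuousAt]
    intro q0
    have hlim : Tendsto (fun q : X × X => ρ q.1 q0.1 + ρ q.2 q0.2) (𝓝 q0) (𝓝 0) := by
      have h1 : Continuous fun q : X × X => ρ q.1 q0.1 + ρ q.2 q0.2 :=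
        (hρ.cont.comp (continuous_fst.prodMk continuous_const)).add
          (hρ.cont.comp (continuous_snd.prodMk continuous_const))
      have h2 := h1.tendsto q0
      simpa [hρ.self] using h2
    refine tendsto_iff_dist_tendsto_zero.2 (squeeze_zero (fun _ => dist_nonneg) (fun q => ?_) hlim)
    rw [Real.dist_eq, abs_le]
    have e1 := htri q.1 q0.1 q.2
    have e2 := htri q0.1 q0.2 q.2
    have e3 := htri q0.1 q.1 q0.2
    have e4 := htri q.1 q.2 q0.2
    have e5 := hle q.1 q0.1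
    have e6 := hle q.2 q0.2
    have e7 := hsymm q0.1 q.1
    have e8 := hsymm q0.2 q.2
    constructor <;> linarith
  · intro x y hxy
    have h1 : ∀ n, ρ x (u n) = ρ y (u n) := by
      intro n
      have h2 := le_ciSup (hbdd x y) n
      simp only at hxy h2
      rw [hxy] at h2
      have h3 : 0 ≤ |ρ x (u n) - ρ y (u n)| / 2 ^ n := by positivity
      have h4 := le_antisymm h2 h3
      rw [div_eq_zero_iff] at h4
      have h5 := h4.resolve_right (by positivity)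
      linarith [abs_eq_zero.1 h5]
    have h2 : (fun z => ρ x z) = fun z => ρ y z := by
      refine hu.equalizer ?_ ?_ (funext h1)
      · exact hρ.cont.comp (continuous_const.prodMk continuous_id)
      · exact hρ.cont.comp (continuous_const.prodMk continuous_id)
    have h3 : ρ x y = ρ y y := congrFun h2 y
    rw [h3, hρ.self]
  · intro κ hκ0 hκ1
    set y0 : ℝ := Real.log (1 / κ) with hy0
    have hy0nn : 0 ≤ y0 := Real.log_nonneg (by rw [le_div_iff₀ hκ0]; linarith)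
    set A : ℝ := Real.log (4 * D) with hA
    have hA0 : 0 ≤ A := Real.log_nonneg (by linarith)
    have hDκ1 : 1 ≤ 2 * D / κ := by
      rw [le_div_iff₀ hκ0]
      linarith
    have hlogD : Real.log (2 * D / κ) ≤ A + y0 := by
      rw [hA, hy0, ← Real.log_mul (by positivity) (by positivity)]
      refine Real.log_le_log (by positivity) ?_
      rw [mul_one_div]
      exact div_le_div_of_nonneg_right (by linarith) hκ0.le
    have hlogD0 : 0 ≤ Real.log (2 * D / κ) := Real.log_nonneg hDκ1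
    set m : ℕ := ⌈2 * Real.log (2 * D / κ)⌉₊ with hm
    have hm1 : 2 * D / κ ≤ 2 ^ m := by
      rw [← Real.log_le_log_iff (by positivity) (by positivity), Real.log_pow]
      have h1 : 2 * Real.log (2 * D / κ) ≤ m := Nat.le_ceil _
      have h2 := Real.log_two_gt_d9
      nlinarith
    have hm2 : (m : ℝ) ≤ 2 * Real.log (2 * D / κ) + 1 :=
      (Nat.ceil_lt_add_one (by positivity)).le
    set K : ℕ := ⌊2 * D / κ⌋₊ with hK
    have hKle : (K : ℝ) ≤ 2 * D / κ := Nat.floor_le (by positivity)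
    have hcode : ∀ x n, ⌊ρ x (u n) / (κ / 2)⌋₊ < K + 1 := by
      intro x n
      refine Nat.lt_succ_of_le (Nat.floor_le_floor ?_)
      rw [div_div_eq_mul_div]
      exact div_le_div_of_nonneg_right (by linarith [hD x (u n)]) hκ0.le
    refine ⟨(K + 1) ^ m, by positivity,
      fun x => finFunctionFinEquiv fun n : Fin m => ⟨⌊ρ x (u n) / (κ / 2)⌋₊, hcode x n⟩, ?_, ?_⟩
    · rw [Nat.cast_pow, Real.log_pow]
      have h1 : Real.log ((K + 1 : ℕ) : ℝ) ≤ A + y0 := by
        rw [hA, hy0, ← Real.log_mul (by positivity) (by positivity)]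
        refine Real.log_le_log (by positivity) ?_
        push_cast
        rw [mul_one_div]
        have : 4 * D / κ = 2 * D / κ + 2 * D / κ := by ring
        rw [this]
        linarith
      have h2 : 0 ≤ Real.log ((K + 1 : ℕ) : ℝ) := Real.log_nonneg (by
        push_cast
        have : (0 : ℝ) ≤ K := Nat.cast_nonneg _
        linarith)
      calc (m : ℝ) * Real.log ((K + 1 : ℕ) : ℝ) ≤ (2 * (A + y0) + 1) * (A + y0) :=
            mul_le_mul (by linarith) h1 h2 (by positivity)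
        _ ≤ (2 * (A + 1) * (1 + y0)) * ((A + 1) * (1 + y0)) := by
            refine mul_le_mul ?_ ?_ (by positivity) (by positivity)
            · nlinarith [mul_nonneg hA0 hy0nn]
            · nlinarith [mul_nonneg hA0 hy0nn]
        _ = 2 * (A + 1) ^ 2 * (1 + y0) ^ 2 := by ring
    · intro x y hxy
      have h1 := finFunctionFinEquiv.injective hxy
      have h2 : ∀ n < m, |ρ x (u n) - ρ y (u n)| ≤ κ / 2 := by
        intro n hn
        have h3 := congrArg Fin.val (congrFun h1 ⟨n, hn⟩)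
        simp only at h3
        have hκ2 : 0 < κ / 2 := by positivity
        have h4 := Nat.floor_le (div_nonneg (hnn x (u n)) hκ2.le)
        have h5 := Nat.lt_floor_add_one (ρ x (u n) / (κ / 2))
        have h6 := Nat.floor_le (div_nonneg (hnn y (u n)) hκ2.le)
        have h7 := Nat.lt_floor_add_one (ρ y (u n) / (κ / 2))
        rw [h3] at h4 h5
        rw [le_div_iff₀ hκ2] at h4 h6
        rw [div_lt_iff₀ hκ2] at h5 h7
        rw [abs_le]
        constructor <;> nlinarith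
      have h3 : (⨆ n : ℕ, |ρ x (u n) - ρ y (u n)| / 2 ^ n) ≤ κ / 2 := by
        refine ciSup_le fun n => ?_
        rcases lt_or_ge n m with hn | hn
        · exact (div_le_self (abs_nonneg _) (one_le_pow₀ (by norm_num))).trans (h2 n hn)
        · have h4 : |ρ x (u n) - ρ y (u n)| ≤ D := (habs x y _).trans (hD x y)
          rw [div_le_iff₀ (by positivity)]
          have h5 : (2 : ℝ) ^ m ≤ 2 ^ n := pow_le_pow_right₀ (by norm_num) hn
          rw [div_le_iff₀ hκ0] at hm1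
          nlinarith
      exact lt_of_le_of_lt h3 (by linarith)

/-! ### Comparison of the spaces of maps -/

lemma exists_delta {X : Type u} [TopologicalSpace X] [CompactSpace X] {ρ ρ' : X → X → ℝ}
    (hρ : IsContPseudometric ρ) (hρ' : IsContPseudometric ρ') (h0 : ∀ x y, ρ' x y = 0 → ρ x y = 0)
    {δ : ℝ} (hδ : 0 < δ) : ∃ δ' : ℝ, 0 < δ' ∧ ∀ d : ℕ, 0 < d → ∀ φ ψ : Fin d → X,
      rhoP ρ' 2 φ ψ ≤ δ' → rhoP ρ 2 φ ψ ≤ δ := by
  obtain ⟨D0, hD0⟩ : ∃ D0 : ℝ, ∀ x y, ρ x y ≤ D0 := by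
    obtain ⟨D0, hD0⟩ := (isCompact_univ (X := X × X)).bddAbove_image hρ.cont.continuousOn
    exact ⟨D0, fun x y => hD0 ⟨(x, y), mem_univ _, rfl⟩⟩
  set D : ℝ := max D0 1 with hDdef
  have hD1 : 1 ≤ D := le_max_right _ _
  have hD : ∀ x y, ρ x y ≤ D := fun x y => (hD0 x y).trans (le_max_left _ _)
  have hcomp : IsCompact {q : X × X | δ / 2 ≤ ρ q.1 q.2} :=
    (isClosed_le continuous_const hρ.cont).isCompact
  obtain ⟨η, hη0, hη⟩ := hcomp.exists_forall_le' (f := fun q : X × X => ρ' q.1 q.2) (a := 0)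
    hρ'.cont.continuousOn (by
      rintro ⟨x, y⟩ hq
      refine lt_of_le_of_ne (hρ'.nonneg x y) fun h => ?_
      have h1 := h0 x y h.symm
      have h2 : δ / 2 ≤ ρ x y := hq
      linarith)
  refine ⟨η * δ / (2 * D), by positivity, fun d hd φ ψ h => ?_⟩
  rw [rhoP_le_iff hρ'.nonneg two_pos hd _ _ (by positivity)] at h
  rw [rhoP_le_iff hρ.nonneg two_pos hd _ _ hδ.le]
  simp only [Real.rpow_two] at h ⊢
  have hd' : (0 : ℝ) < d := by exact_mod_cast hd
  have key : ∀ x y, ρ x y ^ 2 ≤ (δ / 2) ^ 2 + (D / η) ^ 2 * ρ' x y ^ 2 := by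
    intro x y
    by_cases hxy : δ / 2 ≤ ρ x y
    · have h1 : η ≤ ρ' x y := hη (x, y) hxy
      have h2 : ρ x y ≤ D / η * ρ' x y := by
        calc ρ x y ≤ D := hD x y
          _ = D / η * η := by field_simp
          _ ≤ _ := mul_le_mul_of_nonneg_left h1 (by positivity)
      calc ρ x y ^ 2 ≤ (D / η * ρ' x y) ^ 2 := pow_le_pow_left₀ (hρ.nonneg x y) h2 2
        _ = (D / η) ^ 2 * ρ' x y ^ 2 := by ring
        _ ≤ _ := by linarith [sq_nonneg (δ / 2)]
    · push Not at hxy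
      have h1 : ρ x y ^ 2 ≤ (δ / 2) ^ 2 := pow_le_pow_left₀ (hρ.nonneg x y) hxy.le 2
      have h2 : 0 ≤ (D / η) ^ 2 * ρ' x y ^ 2 := by positivity
      linarith
  calc ∑ j, ρ (φ j) (ψ j) ^ 2 ≤ ∑ j, ((δ / 2) ^ 2 + (D / η) ^ 2 * ρ' (φ j) (ψ j) ^ 2) :=
        Finset.sum_le_sum fun j _ => key _ _
    _ = d * (δ / 2) ^ 2 + (D / η) ^ 2 * ∑ j, ρ' (φ j) (ψ j) ^ 2 := by
        rw [Finset.sum_add_distrib, ← Finset.mul_sum]
        simp
    _ ≤ d * (δ / 2) ^ 2 + (D / η) ^ 2 * ((η * δ / (2 * D)) ^ 2 * d) := by gcongr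
    _ = δ ^ 2 / 2 * d := by
        field_simp
        ring
    _ ≤ δ ^ 2 * d := by
        refine mul_le_mul_of_nonneg_right ?_ hd'.le
        linarith [sq_nonneg δ]

/-! ### Counting -/

lemma count_fun {d N : ℕ} {τ θ : ℝ} (hθ0 : 0 < θ) (hθ1 : θ ≤ 1) :
    ((Finset.univ.filter fun g : Fin d → Option (Fin N) =>
      ((Finset.univ.filter fun l => g l ≠ none).card : ℝ) ≤ τ * d).card : ℝ) * θ ^ (τ * d) ≤
      (1 + N * θ) ^ d := by
  classical
  have h1 : ∑ g : Fin d → Option (Fin N), ∏ l, (if g l ≠ none then θ else 1) =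
      (1 + N * θ) ^ d := by
    have := Finset.prod_univ_sum (fun _ : Fin d => (Finset.univ : Finset (Option (Fin N))))
      (fun _ o => if o ≠ none then θ else 1)
    rw [Fintype.piFinset_univ] at this
    rw [← this]
    simp [Fintype.sum_option]
  rw [← h1]
  calc _ = ∑ _g ∈ Finset.univ.filter fun g : Fin d → Option (Fin N) =>
          ((Finset.univ.filter fun l => g l ≠ none).card : ℝ) ≤ τ * d, θ ^ (τ * d) := by
        rw [Finset.sum_const, nsmul_eq_mul]
    _ ≤ ∑ g ∈ Finset.univ.filter fun g : Fin d → Option (Fin N) =>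
          ((Finset.univ.filter fun l => g l ≠ none).card : ℝ) ≤ τ * d,
          ∏ l, (if g l ≠ none then θ else 1) := by
        refine Finset.sum_le_sum fun g hg => ?_
        rw [Finset.prod_ite, Finset.prod_const, Finset.prod_const_one, mul_one,
          ← Real.rpow_natCast]
        exact Real.rpow_le_rpow_of_exponent_ge hθ0 hθ1 (Finset.mem_filter.1 hg).2
    _ ≤ _ := by
        refine Finset.sum_le_sum_of_subset_of_nonneg (Finset.filter_subset _ _) fun g _ _ => ?_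
        refine Finset.prod_nonneg fun l _ => ?_
        split_ifs <;> linarith

lemma count_bound {d N : ℕ} (hN : 0 < N) {τ : ℝ} (hτ0 : 0 < τ) (hτ1 : τ ≤ 1) :
    ((Finset.univ.filter fun g : Fin d → Option (Fin N) =>
      ((Finset.univ.filter fun l => g l ≠ none).card : ℝ) ≤ τ * d).card : ℝ) ≤
      Real.exp (d * (τ * (Real.log N + Real.log (1 / τ) + 1))) := by
  have hN' : (0 : ℝ) < N := by exact_mod_cast hN
  have hN1 : (1 : ℝ) ≤ N := by exact_mod_cast hN
  have h1 := count_fun (d := d) (N := N) (τ := τ) (θ := τ / N) (by positivity)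
    ((div_le_one hN').2 (hτ1.trans hN1))
  have h2 : (N : ℝ) * (τ / N) = τ := by field_simp
  rw [h2] at h1
  have h3 : (1 + τ) ^ d ≤ Real.exp (τ * d) := by
    calc (1 + τ) ^ d ≤ (Real.exp τ) ^ d :=
          pow_le_pow_left₀ (by positivity) (by linarith [Real.add_one_le_exp τ]) d
      _ = Real.exp (τ * d) := by rw [← Real.exp_nat_mul]; ring_nf
  have h4 : (τ / N) ^ (τ * d) = Real.exp (-(τ * d * (Real.log N + Real.log (1 / τ)))) := by
    rw [Real.rpow_def_of_pos (by positivity), Real.log_div hτ0.ne' hN'.ne', one_div,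
      Real.log_inv]
    congr 1
    ring
  rw [h4] at h1
  have h5 : Real.exp (d * (τ * (Real.log N + Real.log (1 / τ) + 1))) *
      Real.exp (-(τ * d * (Real.log N + Real.log (1 / τ)))) = Real.exp (τ * d) := by
    rw [← Real.exp_add]
    congr 1
    ring
  refine le_of_mul_le_mul_right ?_ (Real.exp_pos (-(τ * d * (Real.log N + Real.log (1 / τ)))))
  rw [h5]
  exact h1.trans h3

lemma main_count {X : Type u} {ρ ρ' : X → X → ℝ} (hρ0 : ∀ x, ρ x x = 0)
    (hρs : ∀ x y, ρ x y = ρ y x)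
    (hρ'nn : ∀ x y, 0 ≤ ρ' x y) (hρ's : ∀ x y, ρ' x y = ρ' y x)
    (hρ't : ∀ x y z, ρ' x z ≤ ρ' x y + ρ' y z)
    (hle : ∀ x y, ρ' x y ≤ ρ x y) {p : ℝ} (hp : 0 < p) {ε κ : ℝ} (hε : 0 < ε) (hκ : 0 < κ)
    (hτ : (2 * ε / κ) ^ p ≤ 1) {N : ℕ} (hN : 0 < N) (c : X → Fin N)
    (hc : ∀ x y, c x = c y → ρ' x y < κ) {d : ℕ} (hd : 0 < d) (Y : Set (Fin d → X)) {B : ℝ}
    (hB : ∀ E : Finset (Fin d → X), (E : Set (Fin d → X)) ⊆ Y →
      (∀ x ∈ E, ∀ y ∈ E, x ≠ y → ε ≤ rhoP ρ p x y) → (E.card : ℝ) ≤ B)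
    (S : Finset (Fin d → X)) (hSY : (S : Set (Fin d → X)) ⊆ Y)
    (hS : ∀ x ∈ S, ∀ y ∈ S, x ≠ y → κ ≤ rhoInf ρ' x y) :
    (S.card : ℝ) ≤ B * Real.exp (d * ((2 * ε / κ) ^ p *
      (Real.log N + Real.log (1 / (2 * ε / κ) ^ p) + 1))) := by
  classical
  set τ : ℝ := (2 * ε / κ) ^ p with hτdef
  have hτ0 : 0 < τ := Real.rpow_pos_of_pos (by positivity) _
  have hd' : (0 : ℝ) < d := by exact_mod_cast hd
  have hρnn : ∀ x y, 0 ≤ ρ x y := fun x y => (hρ'nn x y).trans (hle x y)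
  have hsymm : ∀ x y : Fin d → X, rhoP ρ p x y = rhoP ρ p y x := by
    intro x y
    unfold rhoP
    simp only [hρs]
  have hself : ∀ x : Fin d → X, rhoP ρ p x x = 0 := by
    intro x
    unfold rhoP
    simp only [hρ0, Real.zero_rpow hp.ne', Finset.sum_const_zero, zero_div]
    exact Real.zero_rpow (by positivity)
  obtain ⟨E, hE, hEmax⟩ := Finset.exists_max_image (S.powerset.filter fun E =>
    ∀ x ∈ E, ∀ y ∈ E, x ≠ y → ε ≤ rhoP ρ p x y) Finset.card ⟨∅, by simp⟩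
  obtain ⟨hES, hEsep⟩ := Finset.mem_filter.1 hE
  rw [Finset.mem_powerset] at hES
  have hEB := hB E ((Finset.coe_subset.2 hES).trans hSY) hEsep
  have hcov : ∀ φ ∈ S, ∃ e ∈ E, rhoP ρ p φ e < ε := by
    intro φ hφ
    by_contra hcon
    push Not at hcon
    have hφE : φ ∉ E := by
      intro h
      have := hcon φ h
      rw [hself] at this
      linarith
    have h1 := hEmax (insert φ E) (by
      rw [Finset.mem_filter, Finset.mem_powerset]
      refine ⟨Finset.insert_subset hφ hES, ?_⟩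
      intro x hx y hy hxy
      rcases Finset.mem_insert.1 hx with hx' | hx'
      · rcases Finset.mem_insert.1 hy with hy' | hy'
        · exact absurd (hx'.trans hy'.symm) hxy
        · rw [hx']
          exact hcon y hy'
      · rcases Finset.mem_insert.1 hy with hy' | hy'
        · rw [hsymm, hy']
          exact hcon x hx'
        · exact hEsep x hx' y hy' hxy)
    rw [Finset.card_insert_of_notMem hφE] at h1
    omega
  have hone : ∀ e ∈ E, ((S.filter fun φ => rhoP ρ p φ e < ε).card : ℝ) ≤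
      Real.exp (d * (τ * (Real.log N + Real.log (1 / τ) + 1))) := by
    intro e _
    refine le_trans ?_ (count_bound (d := d) hN hτ0 hτ)
    have hinj : (S.filter fun φ => rhoP ρ p φ e < ε).card ≤
        (Finset.univ.filter fun g : Fin d → Option (Fin N) =>
          ((Finset.univ.filter fun l => g l ≠ none).card : ℝ) ≤ τ * d).card := by
      refine Finset.card_le_card_of_injOn
        (fun φ l => if ρ' (φ l) (e l) < κ / 2 then none else some (c (φ l))) ?_ ?_
      · intro φ hφ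
        obtain ⟨hφS, hφe⟩ := Finset.mem_filter.1 hφ
        simp only [Finset.coe_filter, Finset.mem_univ, true_and, mem_ofPred_eq]
        have h1 := (rhoP_le_iff hρnn hp hd φ e hε.le).1 hφe.le
        have h2 : (Finset.univ.filter fun l =>
            (if ρ' (φ l) (e l) < κ / 2 then none else some (c (φ l))) ≠ none) =
            Finset.univ.filter fun l => κ / 2 ≤ ρ' (φ l) (e l) := by
          ext l
          simp only [Finset.mem_filter, Finset.mem_univ, true_and]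
          by_cases hl : ρ' (φ l) (e l) < κ / 2
          · simp [hl]
          · simp [hl, not_lt.1 hl]
        rw [h2]
        have h3 : ((Finset.univ.filter fun l => κ / 2 ≤ ρ' (φ l) (e l)).card : ℝ) *
            (κ / 2) ^ p ≤ ε ^ p * d := by
          calc _ = ∑ _l ∈ Finset.univ.filter fun l => κ / 2 ≤ ρ' (φ l) (e l), (κ / 2) ^ p := by
                rw [Finset.sum_const, nsmul_eq_mul]
            _ ≤ ∑ l ∈ Finset.univ.filter fun l => κ / 2 ≤ ρ' (φ l) (e l),
                ρ (φ l) (e l) ^ p := by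
                refine Finset.sum_le_sum fun l hl => ?_
                exact Real.rpow_le_rpow (by positivity)
                  ((Finset.mem_filter.1 hl).2.trans (hle _ _)) hp.le
            _ ≤ ∑ l, ρ (φ l) (e l) ^ p :=
                Finset.sum_le_sum_of_subset_of_nonneg (Finset.filter_subset _ _)
                  fun l _ _ => Real.rpow_nonneg (hρnn _ _) _
            _ ≤ _ := h1
        have h4 : τ * (κ / 2) ^ p = ε ^ p := by
          rw [hτdef, ← Real.mul_rpow (by positivity) (by positivity)]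
          congr 1
          field_simp
        have h5 : 0 < (κ / 2) ^ p := Real.rpow_pos_of_pos (by positivity) _
        refine le_of_mul_le_mul_right ?_ h5
        rw [← h4] at h3
        calc _ ≤ _ := h3
          _ = _ := by ring
      · intro φ hφ φ' hφ' hgg
        have hφS : φ ∈ S := (Finset.mem_filter.1 hφ).1
        have hφ'S : φ' ∈ S := (Finset.mem_filter.1 hφ').1
        by_contra hne
        have h1 := hS φ hφS φ' hφ'S hne
        have : Nonempty (Fin d) := ⟨⟨0, hd⟩⟩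
        obtain ⟨l, hl⟩ := exists_eq_ciSup_of_finite (f := fun j => ρ' (φ j) (φ' j))
        unfold rhoInf at h1
        rw [← hl] at h1
        have h2 := congrFun hgg l
        simp only at h2
        by_cases ha : ρ' (φ l) (e l) < κ / 2
        · by_cases hb : ρ' (φ' l) (e l) < κ / 2
          · have h3 := hρ't (φ l) (e l) (φ' l)
            rw [hρ's (e l) (φ' l)] at h3
            linarith
          · simp [ha, hb] at h2
        · by_cases hb : ρ' (φ' l) (e l) < κ / 2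
          · simp [ha, hb] at h2
          · simp only [ha, hb, if_false, Option.some.injEq] at h2
            have := hc _ _ h2
            linarith
    exact_mod_cast hinj
  have hSsub : S ⊆ E.biUnion fun e => S.filter fun φ => rhoP ρ p φ e < ε := by
    intro φ hφ
    obtain ⟨e, he, h⟩ := hcov φ hφ
    exact Finset.mem_biUnion.2 ⟨e, he, Finset.mem_filter.2 ⟨hφ, h⟩⟩
  have h1 : S.card ≤ ∑ e ∈ E, (S.filter fun φ => rhoP ρ p φ e < ε).card :=
    (Finset.card_le_card hSsub).trans Finset.card_biUnion_le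
  calc (S.card : ℝ) ≤ ∑ e ∈ E, ((S.filter fun φ => rhoP ρ p φ e < ε).card : ℝ) := by
        exact_mod_cast h1
    _ ≤ ∑ _e ∈ E, Real.exp (d * (τ * (Real.log N + Real.log (1 / τ) + 1))) :=
        Finset.sum_le_sum hone
    _ = E.card * Real.exp (d * (τ * (Real.log N + Real.log (1 / τ) + 1))) := by
        rw [Finset.sum_const, nsmul_eq_mul]
    _ ≤ _ := mul_le_mul_of_nonneg_right hEB (Real.exp_pos _).le

/-! ### The asymptotic estimate -/

lemma tendsto_err (C b K : ℝ) (hb : 0 < b) :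
    Tendsto (fun u : ℝ => K * Real.exp (-(b * u)) * (C * (1 + u) ^ 2 + b * u + 1)) atTop (𝓝 0) := by
  have hv : Tendsto (fun u : ℝ => b * u) atTop atTop := tendsto_id.const_mul_atTop hb
  have h0 := (Real.tendsto_pow_mul_exp_neg_atTop_nhds_zero 0).comp hv
  have h1 := (Real.tendsto_pow_mul_exp_neg_atTop_nhds_zero 1).comp hv
  have h2 := (Real.tendsto_pow_mul_exp_neg_atTop_nhds_zero 2).comp hv
  have h3 := ((h0.const_mul (K * (C + 1))).add (h1.const_mul (K * (2 * C / b + 1)))).add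
    (h2.const_mul (K * (C / b ^ 2)))
  simp only [mul_zero, add_zero] at h3
  refine h3.congr fun u => ?_
  simp only [Function.comp_apply, pow_zero, one_mul, pow_one]
  field_simp
  ring

lemma exists_exponent {c' c p C : ℝ} (hcc : c' < c) (hp : 0 < p) (hC : 0 ≤ C) :
    ∃ a : ℝ, 0 < a ∧ a < 1 ∧ ∀ᶠ ε : ℝ in 𝓝[>] 0, ε < 1 ∧ (2 * ε / ε ^ (1 - a)) ^ p ≤ 1 ∧
      c' * Real.log (1 / ε) + (2 * ε / ε ^ (1 - a)) ^ p *
        (C * (1 + Real.log (1 / ε ^ (1 - a))) ^ 2 +
          Real.log (1 / (2 * ε / ε ^ (1 - a)) ^ p) + 1) ≤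
      c * Real.log (1 / ε ^ (1 - a)) := by
  set a : ℝ := min (1 / 2) ((c - c') / (2 * (|c| + 1))) with ha
  have ha0 : 0 < a := lt_min (by norm_num) (div_pos (by linarith) (by positivity))
  have ha1 : a ≤ 1 / 2 := min_le_left _ _
  have ha2 : a ≤ (c - c') / (2 * (|c| + 1)) := min_le_right _ _
  have hca : c * a ≤ (c - c') / 2 := by
    have h1 : c * a ≤ (|c| + 1) * a :=
      mul_le_mul_of_nonneg_right (by linarith [le_abs_self c]) ha0.le
    have h2 : (|c| + 1) * a ≤ (|c| + 1) * ((c - c') / (2 * (|c| + 1))) :=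
      mul_le_mul_of_nonneg_left ha2 (by positivity)
    have h3 : (|c| + 1) * ((c - c') / (2 * (|c| + 1))) = (c - c') / 2 := by
      field_simp
    linarith
  refine ⟨a, ha0, by linarith, ?_⟩
  set b : ℝ := a * p with hb
  have hb0 : 0 < b := by positivity
  -- in terms of `u = log (1/ε)`
  have hu : Tendsto (fun ε : ℝ => Real.log (1 / ε)) (𝓝[>] 0) atTop := by
    have h1 : Tendsto (fun ε : ℝ => ε⁻¹) (𝓝[>] 0) atTop := tendsto_inv_nhdsGT_zero
    have h2 := Real.tendsto_log_atTop.comp h1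
    refine h2.congr fun ε => ?_
    simp
  have e1 := (tendsto_err C b (2 ^ p) hb0).eventually_le_const
    (show (0 : ℝ) < (c - c') / 2 by linarith)
  have e2 : ∀ᶠ u : ℝ in atTop, (2 : ℝ) ^ p * Real.exp (-(b * u)) ≤ 1 := by
    have h1 : Tendsto (fun u : ℝ => (2 : ℝ) ^ p * Real.exp (-(b * u))) atTop (𝓝 ((2 : ℝ) ^ p * 0)) :=
      (Real.tendsto_exp_neg_atTop_nhds_zero.comp (tendsto_id.const_mul_atTop hb0)).const_mul _
    rw [mul_zero] at h1
    exact h1.eventually_le_const one_pos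
  have e3 := eventually_ge_atTop (1 : ℝ)
  filter_upwards [hu.eventually (e1.and (e2.and e3)), self_mem_nhdsWithin] with ε hε hεpos
  obtain ⟨h1, h2, h3⟩ := hε
  have hε0 : 0 < ε := hεpos
  set u : ℝ := Real.log (1 / ε) with hudef
  have hεu : ε = Real.exp (-u) := by
    rw [hudef, one_div, Real.log_inv, neg_neg, Real.exp_log hε0]
  have hεlt : ε < 1 := by
    rw [hεu, Real.exp_lt_one_iff]
    linarith
  have hκ : ε ^ (1 - a) = Real.exp (-((1 - a) * u)) := by
    rw [hεu, ← Real.exp_mul]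
    congr 1
    ring
  have hlogκ : Real.log (1 / ε ^ (1 - a)) = (1 - a) * u := by
    rw [hκ, one_div, Real.log_inv, Real.log_exp, neg_neg]
  have hτ : (2 * ε / ε ^ (1 - a)) ^ p = 2 ^ p * Real.exp (-(b * u)) := by
    have h4 : 2 * ε / ε ^ (1 - a) = 2 * Real.exp (-(a * u)) := by
      rw [hκ, mul_div_assoc]
      congr 1
      rw [hεu, ← Real.exp_sub]
      congr 1
      ring
    rw [h4, Real.mul_rpow (by norm_num) (Real.exp_pos _).le, ← Real.exp_mul]
    congr 2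
    rw [hb]
    ring
  have hlogτ : Real.log (1 / (2 ^ p * Real.exp (-(b * u)))) ≤ b * u := by
    have h5 : (0 : ℝ) < 2 ^ p := Real.rpow_pos_of_pos two_pos _
    rw [one_div, Real.log_inv, Real.log_mul h5.ne' (Real.exp_pos _).ne', Real.log_exp,
      Real.log_rpow two_pos]
    have h6 : 0 ≤ p * Real.log 2 := mul_nonneg hp.le (Real.log_nonneg (by norm_num))
    linarith
  refine ⟨hεlt, by rw [hτ]; exact h2, ?_⟩
  rw [hτ, hlogκ]
  have h7 : C * (1 + (1 - a) * u) ^ 2 ≤ C * (1 + u) ^ 2 := by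
    refine mul_le_mul_of_nonneg_left ?_ hC
    refine pow_le_pow_left₀ ?_ ?_ 2
    · have : 0 ≤ (1 - a) * u := mul_nonneg (by linarith) (by linarith)
      linarith
    · nlinarith
  have h8 : 2 ^ p * Real.exp (-(b * u)) * (C * (1 + (1 - a) * u) ^ 2 +
      Real.log (1 / (2 ^ p * Real.exp (-(b * u)))) + 1) ≤
      2 ^ p * Real.exp (-(b * u)) * (C * (1 + u) ^ 2 + b * u + 1) := by
    refine mul_le_mul_of_nonneg_left (by linarith) ?_
    have : (0 : ℝ) < 2 ^ p := Real.rpow_pos_of_pos two_pos _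
    positivity
  have h9 : c * ((1 - a) * u) - c' * u ≥ (c - c') / 2 := by
    have : c * ((1 - a) * u) - c' * u = ((c - c') - c * a) * u := by ring
    rw [this]
    nlinarith
  linarith

section main

variable {G : Type v} {X : Type u} [Group G] [MulAction G X]

lemma card_le_of_log_lt {Z : Type u} {Y : Set Z} {θ : Z → Z → ℝ} {ε r : ℝ}
    (h : ENNReal.log ((sepNum Y θ ε : ℕ∞) : ℝ≥0∞) < (r : EReal)) (E : Finset Z)
    (hE : (E : Set Z) ⊆ Y) (hsep : ∀ x ∈ E, ∀ y ∈ E, x ≠ y → ε ≤ θ x y) :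
    (E.card : ℝ) ≤ Real.exp r := by
  rcases Nat.eq_zero_or_pos E.card with h0 | h0
  · rw [h0]
    simpa using (Real.exp_pos r).le
  have h1 := card_le_sepNum E hE hsep
  have h2 : ((E.card : ℕ∞) : ℝ≥0∞) ≤ ((sepNum Y θ ε : ℕ∞) : ℝ≥0∞) := ENat.toENNReal_le.2 h1
  have h3 := lt_of_le_of_lt (ENNReal.log_le_log h2) h
  have h4 : ((E.card : ℕ∞) : ℝ≥0∞) = ENNReal.ofReal (E.card : ℝ) := by
    simp
  have h5 : (0 : ℝ) < E.card := by exact_mod_cast h0
  rw [h4, ENNReal.log_ofReal_of_pos h5] at h3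
  have h6 : Real.log E.card < r := by exact_mod_cast h3
  exact ((Real.log_lt_iff_lt_exp h5).1 h6).le

lemma log_sepNum_le {Z : Type u} {Y : Set Z} {θ : Z → Z → ℝ} {ε r : ℝ}
    (h : ∀ E : Finset Z, (E : Set Z) ⊆ Y → (∀ x ∈ E, ∀ y ∈ E, x ≠ y → ε ≤ θ x y) →
      (E.card : ℝ) ≤ Real.exp r) :
    ENNReal.log ((sepNum Y θ ε : ℕ∞) : ℝ≥0∞) ≤ (r : EReal) := by
  have h1 : ((sepNum Y θ ε : ℕ∞) : ℝ≥0∞) ≤ ENNReal.ofReal (Real.exp r) := by
    unfold sepNum
    rw [ENat.toENNReal_iSup]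
    refine iSup_le fun E => ?_
    rw [ENat.toENNReal_iSup]
    refine iSup_le fun hE => ?_
    have h2 := h E hE.1 hE.2
    have h3 : ((E.card : ℕ∞) : ℝ≥0∞) = ENNReal.ofReal (E.card : ℝ) := by simp
    rw [h3]
    exact ENNReal.ofReal_le_ofReal h2
  refine (ENNReal.log_le_log h1).trans ?_
  rw [ENNReal.log_ofReal_of_pos (Real.exp_pos r), Real.log_exp]

/-- The key comparison for one pseudometric. -/
theorem key [TopologicalSpace X] [CompactSpace X] [TopologicalSpace.MetrizableSpace X]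
    {d : ℕ → ℕ} (hd : Tendsto d atTop atTop) (σ : (i : ℕ) → G → Equiv.Perm (Fin (d i)))
    {p : ℝ} (hp : 1 ≤ p) {ρ : X → X → ℝ} (hρ : IsContPseudometric ρ)
    (hgen : DynGenerating G ρ) : metricMeanDim G X d σ ≤ mdimP d σ p ρ := by
  obtain ⟨ρ', hρ', hle, h0, C, hC0, hC⟩ := exists_slow hρ
  have hgen' : DynGenerating G ρ' := by
    intro x y hxy
    obtain ⟨s, hs⟩ := hgen x y hxy
    refine ⟨s, lt_of_le_of_ne (hρ'.nonneg _ _) fun h => ?_⟩
    rw [h0 _ _ h.symm] at hs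
    exact lt_irrefl _ hs
  refine (iInf₂_le ρ' ⟨hρ', hgen'⟩).trans ?_
  have hp0 : 0 < p := by linarith
  refine le_of_forall_gt_imp_ge_of_dense fun v hv => ?_
  obtain ⟨c', hc'1, hc'2⟩ := EReal.lt_iff_exists_real_btwn.1 hv
  obtain ⟨c, hc1, hc2⟩ := EReal.lt_iff_exists_real_btwn.1 hc'2
  have hcc : c' < c := by exact_mod_cast hc1
  refine le_trans ?_ hc2.le
  obtain ⟨a, ha0, ha1, hev⟩ := exists_exponent (C := C) hcc hp0 hC0
  have hfreq := frequently_lt_of_liminf_lt (by isBoundedDefault) hc'1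
  have hfreq2 := (hfreq.and_eventually hev).and_eventually self_mem_nhdsWithin
  have htend : Tendsto (fun ε : ℝ => ε ^ (1 - a)) (𝓝[>] 0) (𝓝[>] 0) := by
    refine tendsto_nhdsWithin_iff.2 ⟨?_, ?_⟩
    · have h1 : Tendsto (fun ε : ℝ => ε ^ (1 - a)) (𝓝 0) (𝓝 ((0 : ℝ) ^ (1 - a))) :=
        (Real.continuousAt_rpow_const 0 (1 - a) (Or.inr (by linarith))).tendsto
      rw [Real.zero_rpow (by linarith)] at h1
      exact h1.mono_left nhdsWithin_le_nhds
    · filter_upwards [self_mem_nhdsWithin] with ε hε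
      exact Real.rpow_pos_of_pos hε _
  refine liminf_le_of_frequently_le' (htend.frequently (hfreq2.mono ?_))
  rintro ε ⟨⟨h1, h2, h3, h4⟩, hε⟩
  have hε0 : 0 < ε := hε
  set κ : ℝ := ε ^ (1 - a) with hκ
  have hκ0 : 0 < κ := Real.rpow_pos_of_pos hε0 _
  have hκ1 : κ < 1 := Real.rpow_lt_one hε0.le h2 (by linarith)
  obtain ⟨F, hF⟩ := iInf_lt_iff.1 h1
  obtain ⟨δ, hδ⟩ := iInf_lt_iff.1 hF
  obtain ⟨hδ0, hlim⟩ := iInf_lt_iff.1 hδ
  obtain ⟨δ', hδ'0, hδ'⟩ := exists_delta hρ hρ' h0 hδ0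
  refine iInf_le_of_le F (iInf_le_of_le δ' (iInf_le_of_le hδ'0 ?_))
  refine limsup_le_of_le (by isBoundedDefault) ?_
  filter_upwards [eventually_lt_of_limsup_lt hlim, hd.eventually_gt_atTop 0] with i h5 h6
  have hdi : (0 : ℝ) < d i := by exact_mod_cast h6
  have hlogε : 0 < Real.log (1 / ε) := Real.log_pos (by rw [lt_div_iff₀ hε0]; linarith)
  have hlogκ : 0 < Real.log (1 / κ) := Real.log_pos (by rw [lt_div_iff₀ hκ0]; linarith)
  have hp1 : (0 : EReal) < (((d i : ℝ) * Real.log (1 / ε) : ℝ) : EReal) := by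
    exact_mod_cast mul_pos hdi hlogε
  have hp2 : (0 : EReal) < (((d i : ℝ) * Real.log (1 / κ) : ℝ) : EReal) := by
    exact_mod_cast mul_pos hdi hlogκ
  rw [EReal.div_lt_iff hp1 (EReal.coe_ne_top _), ← EReal.coe_mul] at h5
  rw [EReal.div_le_iff_le_mul hp2 (EReal.coe_ne_top _), ← EReal.coe_mul]
  obtain ⟨N, hN0, cc, hN, hcc2⟩ := hC κ hκ0 hκ1.le
  have hsub : MapSet ρ' F δ' (σ i) ⊆ MapSet ρ F δ (σ i) := fun φ hφ s hs =>
    hδ' (d i) h6 _ _ (hφ s hs)
  refine log_sepNum_le fun S hS hsep => ?_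
  have hmain := main_count hρ.self hρ.symm hρ'.nonneg hρ'.symm hρ'.triangle hle hp0 hε0 hκ0 h3
    hN0 cc hcc2 h6 (MapSet ρ F δ (σ i)) (B := Real.exp (c' * (d i * Real.log (1 / ε))))
    (fun E hE hEsep => card_le_of_log_lt h5 E hE hEsep) S (hS.trans hsub) hsep
  refine hmain.trans ?_
  rw [← Real.exp_add]
  refine Real.exp_le_exp.2 ?_
  have hτ0 : 0 ≤ (2 * ε / κ) ^ p := Real.rpow_nonneg (by positivity) _
  have h7 : (2 * ε / κ) ^ p * (Real.log N + Real.log (1 / (2 * ε / κ) ^ p) + 1) ≤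
      (2 * ε / κ) ^ p * (C * (1 + Real.log (1 / κ)) ^ 2 + Real.log (1 / (2 * ε / κ) ^ p) + 1) :=
    mul_le_mul_of_nonneg_left (by linarith) hτ0
  calc c' * (d i * Real.log (1 / ε)) + d i * ((2 * ε / κ) ^ p *
        (Real.log N + Real.log (1 / (2 * ε / κ) ^ p) + 1))
      = d i * (c' * Real.log (1 / ε) + (2 * ε / κ) ^ p *
        (Real.log N + Real.log (1 / (2 * ε / κ) ^ p) + 1)) := by ring
    _ ≤ d i * (c * Real.log (1 / κ)) :=
        mul_le_mul_of_nonneg_left (by linarith) hdi.le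
    _ = d i * Real.log (1 / κ) * c := by ring

/-- The easy comparison. -/
theorem easy [TopologicalSpace X] {d : ℕ → ℕ}
    (σ : (i : ℕ) → G → Equiv.Perm (Fin (d i))) {p : ℝ} (hp : 1 ≤ p) {ρ : X → X → ℝ}
    (hρ : IsContPseudometric ρ) : mdimP d σ p ρ ≤ mdimInf d σ ρ := by
  refine liminf_le_liminf ?_
  have h1 : ∀ᶠ ε : ℝ in 𝓝[>] 0, ε < 1 :=
    (eventually_lt_nhds one_pos).filter_mono nhdsWithin_le_nhds
  filter_upwards [h1, self_mem_nhdsWithin] with ε hε1 hε
  have hε0 : 0 < ε := hε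
  refine iInf_mono fun F => iInf_mono fun δ => iInf_mono fun _ => ?_
  refine limsup_le_limsup (Eventually.of_forall fun i => ?_)
  refine EReal.div_le_div_right_of_nonneg ?_ (ENNReal.log_le_log (ENat.toENNReal_le.2
    (sepNum_mono le_rfl fun x y => rhoP_le_rhoInf hρ.nonneg (by linarith) x y)))
  have hlogε : 0 < Real.log (1 / ε) := Real.log_pos (by rw [lt_div_iff₀ hε0]; linarith)
  exact_mod_cast mul_nonneg (Nat.cast_nonneg _) hlogε.le

end main

/-- **Positive answer to Q1**: for every countable group with a sofic approximation sequence,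
every `1 ≤ p < ∞` and every action by homeomorphisms on a compact metrizable space, the
`p`-metric mean dimension equals the sofic metric mean dimension. -/
theorem result (G : Type v) [Group G] [Countable G] (d : ℕ → ℕ)
    (σ : (i : ℕ) → G → Equiv.Perm (Fin (d i))) (hσ : IsSoficApprox G d σ)
    (X : Type u) [TopologicalSpace X] [CompactSpace X] [TopologicalSpace.MetrizableSpace X]
    [MulAction G X] [ContinuousConstSMul G X] (p : ℝ) (hp : 1 ≤ p) :
    pMetricMeanDim G X d σ p = metricMeanDim G X d σ := by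
  refine le_antisymm ?_ ?_
  · exact iInf_mono fun ρ => iInf_mono fun h => easy σ hp h.1
  · exact le_iInf₂ fun ρ h => key hσ.size σ hp h.1 h.2

end Pool.Agent.Results.MP_9d0111_an.PMetricMeanDim
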